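import Pool.Agent.Helper82.HB.Defs
import Pool.Agent.Helper80.HS.MCAL
import Pool.Agent.Helper95.Lin.Basics

/-! # HB: calculus of the entrywise derivatives of rectangular matrix functions -/

open Complex Metric Set Filter Topology MeasureTheory
open scoped ContDiff ComplexConjugate ComplexOrder Manifold Matrix

namespace Pool.Agent.Helper10.HB

open Pool.Agent.Helper95.Lin Pool.Agent.Helper16.Abund Pool.Agent.Helper92.Orb
  Pool.Agent.Helper10.SP Pool.Agent.Helper95.RK Pool.Agent.Helper57.HS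
  Pool.Agent.Helper15.HS Pool.Agent.Helper15.GS Pool.Agent.Helper57.RBC
  Pool.Agent.Helper82.HB
open Pool.Agent.Helper16.RK (IsDer)
open Pool.Agent.Helper80.HS (isDer_cd isDer_cdb)

variable {n a b c : ℕ} {W : Set (Cn n)} {x : Cn n}

/-- The product rule for rectangular matrices, for a derivation. -/
theorem isDer_mulR {D : (Cn n → ℂ) → ℂ} (h : IsDer W x D)
    (X : Cn n → Matrix (Fin a) (Fin b) ℂ) (Y : Cn n → Matrix (Fin b) (Fin c) ℂ)
    (hX : ∀ i j, ContDiffOn ℝ ∞ (fun x => X x i j) W)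
    (hY : ∀ i j, ContDiffOn ℝ ∞ (fun x => Y x i j) W) (i : Fin a) (j : Fin c) :
    D (fun y => (X y * Y y) i j) =
      ∑ p, D (fun y => X y i p) * Y x p j + ∑ p, X x i p * D (fun y => Y y p j) := by
  have e : (fun y => (X y * Y y) i j) = fun y => ∑ p, X y i p * Y y p j := by
    funext y; rw [Matrix.mul_apply]
  rw [e, h.sum Finset.univ (fun p y => X y i p * Y y p j) (fun p _ => (hX i p).mul (hY p j)),
    ← Finset.sum_add_distrib]
  refine Finset.sum_congr rfl fun p _ => ?_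
  rw [h.mul _ _ (hX i p) (hY p j)]
  ring

theorem mulR_smooth (X : Cn n → Matrix (Fin a) (Fin b) ℂ) (Y : Cn n → Matrix (Fin b) (Fin c) ℂ)
    (hX : ∀ i j, ContDiffOn ℝ ∞ (fun x => X x i j) W)
    (hY : ∀ i j, ContDiffOn ℝ ∞ (fun x => Y x i j) W) :
    ∀ i j, ContDiffOn ℝ ∞ (fun x => (X x * Y x) i j) W := by
  intro i j
  simp only [Matrix.mul_apply]
  exact ContDiffOn.sum fun p _ => (hX i p).mul (hY p j)

theorem ctR_smooth (X : Cn n → Matrix (Fin a) (Fin b) ℂ)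
    (hX : ∀ i j, ContDiffOn ℝ ∞ (fun x => X x i j) W) :
    ∀ i j, ContDiffOn ℝ ∞ (fun x => ((X x)ᴴ) i j) W := by
  intro i j
  simp only [Matrix.conjTranspose_apply]
  exact (Complex.conjCLE.contDiff (n := ∞)).comp_contDiffOn (hX j i)

theorem cdR_smooth (hWIRT : S_WIRT) (hW : IsOpen W) (X : Cn n → Matrix (Fin a) (Fin b) ℂ)
    (hX : ∀ i j, ContDiffOn ℝ ∞ (fun x => X x i j) W) (k : Fin n) (i : Fin a) (j : Fin b) :
    ContDiffOn ℝ ∞ (fun x => cdR k X x i j) W ∧ ContDiffOn ℝ ∞ (fun x => cdbR k X x i j) W :=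
  ⟨((hWIRT W hW _ _ (hX i j) (hX i j)).1 k).1, ((hWIRT W hW _ _ (hX i j) (hX i j)).1 k).2⟩

/-- The rules. -/
theorem rcal (hWIRT : S_WIRT) (hW : IsOpen W) (X : Cn n → Matrix (Fin a) (Fin b) ℂ)
    (Y : Cn n → Matrix (Fin b) (Fin c) ℂ)
    (hX : ∀ i j, ContDiffOn ℝ ∞ (fun x => X x i j) W)
    (hY : ∀ i j, ContDiffOn ℝ ∞ (fun x => Y x i j) W) (x : Cn n) (hx : x ∈ W) (k : Fin n) :
    cdR k (fun y => X y * Y y) x = cdR k X x * Y x + X x * cdR k Y x ∧
    cdbR k (fun y => X y * Y y) x = cdbR k X x * Y x + X x * cdbR k Y x ∧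
    cdR k (fun y => (X y)ᴴ) x = (cdbR k X x)ᴴ ∧ cdbR k (fun y => (X y)ᴴ) x = (cdR k X x)ᴴ ∧
    ∀ l, cdR k (cdbR l X) x = cdbR l (cdR k X) x := by
  refine ⟨?_, ?_, ?_, ?_, ?_⟩
  · ext i j
    have h1 := isDer_mulR (isDer_cd hWIRT hW hx k) X Y hX hY i j
    rw [Matrix.add_apply, Matrix.mul_apply, Matrix.mul_apply]
    exact h1
  · ext i j
    have h1 := isDer_mulR (isDer_cdb hWIRT hW hx k) X Y hX hY i j
    rw [Matrix.add_apply, Matrix.mul_apply, Matrix.mul_apply]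
    exact h1
  · ext i j
    exact ((hWIRT W hW _ _ (hX j i) (hX j i)).2.2.2.1 k x hx).1
  · ext i j
    exact ((hWIRT W hW _ _ (hX j i) (hX j i)).2.2.2.1 k x hx).2
  · intro l
    ext i j
    exact ((hWIRT W hW _ _ (hX i j) (hX i j)).2.2.2.2.1 k l x hx).2.2

theorem cdR_congr (hW : IsOpen W) (hx : x ∈ W) {X Y : Cn n → Matrix (Fin a) (Fin b) ℂ}
    (h : ∀ y ∈ W, X y = Y y) (k : Fin n) : cdR k X x = cdR k Y x ∧ cdbR k X x = cdbR k Y x := by
  constructor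
  · ext i j
    exact (Pool.Agent.Helper83.SP.cd_congr hW (fun y hy => by rw [h y hy]) k hx).1
  · ext i j
    exact (Pool.Agent.Helper83.SP.cd_congr hW (fun y hy => by rw [h y hy]) k hx).2

theorem cdR_sub (hWIRT : S_WIRT) (hW : IsOpen W) (hx : x ∈ W)
    {X Y : Cn n → Matrix (Fin a) (Fin b) ℂ}
    (hX : ∀ i j, ContDiffOn ℝ ∞ (fun x => X x i j) W)
    (hY : ∀ i j, ContDiffOn ℝ ∞ (fun x => Y x i j) W) (k : Fin n) :
    cdR k (fun y => X y - Y y) x = cdR k X x - cdR k Y x ∧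
    cdbR k (fun y => X y - Y y) x = cdbR k X x - cdbR k Y x := by
  constructor
  · ext i j
    exact (isDer_cd hWIRT hW hx k).sub _ _ (hX i j) (hY i j)
  · ext i j
    exact (isDer_cdb hWIRT hW hx k).sub _ _ (hX i j) (hY i j)

theorem cdR_add (hWIRT : S_WIRT) (hW : IsOpen W) (hx : x ∈ W)
    {X Y : Cn n → Matrix (Fin a) (Fin b) ℂ}
    (hX : ∀ i j, ContDiffOn ℝ ∞ (fun x => X x i j) W)
    (hY : ∀ i j, ContDiffOn ℝ ∞ (fun x => Y x i j) W) (k : Fin n) :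
    cdR k (fun y => X y + Y y) x = cdR k X x + cdR k Y x ∧
    cdbR k (fun y => X y + Y y) x = cdbR k X x + cdbR k Y x := by
  constructor
  · ext i j
    exact ((hWIRT W hW _ _ (hX i j) (hY i j)).2.1 k x hx).1
  · ext i j
    exact ((hWIRT W hW _ _ (hX i j) (hY i j)).2.1 k x hx).2

/-- A holomorphic field. -/
theorem cdbR_holo (hWIRT : S_WIRT) (hW : IsOpen W) {X : Cn n → Matrix (Fin a) (Fin b) ℂ}
    (hX : ∀ i j, DifferentiableOn ℂ (fun x => X x i j) W) :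
    (∀ i j, ContDiffOn ℝ ∞ (fun x => X x i j) W) ∧ ∀ x ∈ W, ∀ k, cdbR k X x = 0 := by
  have hs : ∀ i j, ContDiffOn ℝ ∞ (fun x => X x i j) W := fun i j =>
    Pool.Agent.Helper95.Lin.holo_contDiffOn_real hW (hX i j)
  refine ⟨hs, fun x hx k => ?_⟩
  ext i j
  exact ((hWIRT W hW _ _ (hs i j) (hs i j)).2.2.2.2.2.2 (hX i j)) k x hx

theorem cdR_zero (k : Fin n) (x : Cn n) :
    cdR k (fun _ => (0 : Matrix (Fin a) (Fin b) ℂ)) x = 0 ∧
    cdbR k (fun _ => (0 : Matrix (Fin a) (Fin b) ℂ)) x = 0 := by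
  constructor
  · ext i j
    exact (Pool.Agent.Helper83.SP.cd_const 0 k x).1
  · ext i j
    exact (Pool.Agent.Helper83.SP.cd_const 0 k x).2

/-- The derivatives `cdb l (cd k X)` of a holomorphic field vanish. -/
theorem cdb_cd_holo (hWIRT : S_WIRT) (hW : IsOpen W) {X : Cn n → Matrix (Fin a) (Fin b) ℂ}
    (hX : ∀ i j, DifferentiableOn ℂ (fun x => X x i j) W) (x : Cn n) (hx : x ∈ W) (k l : Fin n) :
    cdbR l (cdR k X) x = 0 := by
  obtain ⟨hs, h0⟩ := cdbR_holo hWIRT hW hX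
  rw [← (rcal hWIRT hW X (fun _ => (1 : Matrix (Fin b) (Fin b) ℂ)) hs
    (fun i j => contDiffOn_const) x hx k).2.2.2.2 l,
    (cdR_congr hW hx (X := cdbR l X) (Y := fun _ => 0) (fun y hy => h0 y hy l) k).1]
  exact (cdR_zero k x).1

end Pool.Agent.Helper10.HB
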