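import Pool.Agent.Helper82.HB.GoalsB
import Pool.Agent.Helper10.HB.Rcal
import Pool.Agent.Helper56.GS.GB5
import Pool.Agent.Helper97.HS.MOMP

/-! # HB: rigidity (`S_HB5`) -/

open Complex Metric Set Filter Topology MeasureTheory
open scoped ContDiff ComplexConjugate ComplexOrder Manifold Matrix MatrixOrder

namespace Pool.Agent.Helper10.HB

open Pool.Agent.Helper95.Lin Pool.Agent.Helper16.Abund Pool.Agent.Helper92.Orb
  Pool.Agent.Helper10.SP Pool.Agent.Helper95.RK Pool.Agent.Helper57.HS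
  Pool.Agent.Helper15.HS Pool.Agent.Helper15.GS Pool.Agent.Helper57.RBC
  Pool.Agent.Helper82.HB
open Pool.Agent.Helper56.GS.GB5 (testF_mul det_cont)

universe u v

/-- The gradient term vanishes only for `τ = 0`. -/
theorem aas_zero {n m : ℕ} (K : Matrix (Fin n) (Fin n) ℂ) (h : Matrix (Fin m) (Fin m) ℂ)
    (hK : K.PosDef) (hh : h.PosDef) (τ : Fin n → Matrix (Fin n) (Fin m) ℂ)
    (h0 : (∑ k, ∑ l, K l k * Matrix.trace (τ k * h * (τ l)ᴴ * K)).re = 0) : ∀ k, τ k = 0 := by
  obtain ⟨S, hS⟩ : ∃ S : Matrix (Fin n) (Fin n) ℂ, K = Sᴴ * S := by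
    obtain ⟨L, hL⟩ := CStarAlgebra.nonneg_iff_eq_star_mul_self.mp hK.posSemidef.nonneg
    exact ⟨L, by rwa [Matrix.star_eq_conjTranspose] at hL⟩
  obtain ⟨y, hy⟩ : ∃ y : Matrix (Fin m) (Fin m) ℂ, h = yᴴ * y := by
    obtain ⟨L, hL⟩ := CStarAlgebra.nonneg_iff_eq_star_mul_self.mp hh.posSemidef.nonneg
    exact ⟨L, by rwa [Matrix.star_eq_conjTranspose] at hL⟩
  have hSu : IsUnit S.det := by
    have h3 : K.det ≠ 0 := hK.det_pos.ne'
    rw [hS, Matrix.det_mul] at h3
    exact isUnit_iff_ne_zero.2 (right_ne_zero_of_mul h3)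
  have hyu : IsUnit (yᴴ).det := by
    have h3 : h.det ≠ 0 := hh.det_pos.ne'
    rw [hy, Matrix.det_mul] at h3
    exact isUnit_iff_ne_zero.2 (left_ne_zero_of_mul h3)
  set Z : Fin n → Matrix (Fin n) (Fin m) ℂ := fun a => ∑ k, S a k • τ k with hZ
  have e1 : ∑ k, ∑ l, K l k * Matrix.trace (τ k * h * (τ l)ᴴ * K) =
      ∑ a, Matrix.trace (Z a * h * (Z a)ᴴ * K) := by
    have e2 : ∀ a, Matrix.trace (Z a * h * (Z a)ᴴ * K) =
        ∑ k, ∑ l, (S a k * conj (S a l)) * Matrix.trace (τ k * h * (τ l)ᴴ * K) := by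
      intro a
      have e3 : Z a * h * (Z a)ᴴ * K =
          ∑ k, ∑ l, (S a k * conj (S a l)) • (τ k * h * (τ l)ᴴ * K) := by
        rw [hZ]
        simp only
        rw [Matrix.conjTranspose_sum, Matrix.sum_mul, Matrix.sum_mul, Matrix.sum_mul]
        refine Finset.sum_congr rfl fun k _ => ?_
        rw [Matrix.mul_sum, Matrix.sum_mul]
        refine Finset.sum_congr rfl fun l _ => ?_
        rw [Matrix.conjTranspose_smul, Matrix.mul_smul, Matrix.smul_mul, Matrix.smul_mul,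
          Matrix.smul_mul, Matrix.smul_mul, smul_smul, mul_comm]
        rfl
      rw [e3, Matrix.trace_sum]
      refine Finset.sum_congr rfl fun k _ => ?_
      rw [Matrix.trace_sum]
      refine Finset.sum_congr rfl fun l _ => ?_
      rw [Matrix.trace_smul, smul_eq_mul]
    have e4 : ∀ k l, K l k = ∑ a, S a k * conj (S a l) := by
      intro k l
      rw [hS, Matrix.mul_apply]
      refine Finset.sum_congr rfl fun a _ => ?_
      rw [Matrix.conjTranspose_apply, mul_comm]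
      rfl
    simp only [e2, e4, Finset.sum_mul]
    rw [Finset.sum_comm' (t := fun k => Finset.univ) (s' := fun _ => Finset.univ)
      (t' := Finset.univ) (by simp)]
    calc ∑ l, ∑ k, ∑ a, S a k * conj (S a l) * Matrix.trace (τ k * h * (τ l)ᴴ * K)
        = ∑ l, ∑ a, ∑ k, S a k * conj (S a l) * Matrix.trace (τ k * h * (τ l)ᴴ * K) :=
          Finset.sum_congr rfl fun l _ => Finset.sum_comm
      _ = ∑ a, ∑ l, ∑ k, S a k * conj (S a l) * Matrix.trace (τ k * h * (τ l)ᴴ * K) :=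
          Finset.sum_comm
      _ = ∑ a, ∑ k, ∑ l, S a k * conj (S a l) * Matrix.trace (τ k * h * (τ l)ᴴ * K) :=
          Finset.sum_congr rfl fun a _ => Finset.sum_comm
  have e5 : ∀ a, Matrix.trace (Z a * h * (Z a)ᴴ * K) =
      Matrix.trace ((S * Z a * yᴴ) * (S * Z a * yᴴ)ᴴ) := by
    intro a
    have e6 : (S * Z a * yᴴ) * (S * Z a * yᴴ)ᴴ = S * (Z a * h * (Z a)ᴴ * Sᴴ) := by
      rw [Matrix.conjTranspose_mul, Matrix.conjTranspose_mul, Matrix.conjTranspose_conjTranspose,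
        hy]
      simp only [Matrix.mul_assoc]
    rw [e6, Matrix.trace_mul_comm S, hS]
    simp only [Matrix.mul_assoc]
  rw [e1] at h0
  have hnn : ∀ a, 0 ≤ Matrix.trace (Z a * h * (Z a)ᴴ * K) := by
    intro a
    rw [e5 a]
    exact (Matrix.posSemidef_self_mul_conjTranspose _).trace_nonneg
  have hre : ∀ a ∈ Finset.univ, 0 ≤ (Matrix.trace (Z a * h * (Z a)ᴴ * K)).re := fun a _ =>
    (Complex.nonneg_iff.1 (hnn a)).1
  rw [Complex.re_sum] at h0
  have h1 := (Finset.sum_eq_zero_iff_of_nonneg hre).1 h0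
  have hZ0 : ∀ a, Z a = 0 := by
    intro a
    have h2 : Matrix.trace (Z a * h * (Z a)ᴴ * K) = 0 :=
      Complex.ext (h1 a (Finset.mem_univ a)) (Complex.nonneg_iff.1 (hnn a)).2.symm
    rw [e5 a] at h2
    have h3 := Matrix.trace_mul_conjTranspose_self_eq_zero_iff.1 h2
    have h5 : S⁻¹ * (S * Z a * yᴴ) * (yᴴ)⁻¹ = Z a := by
      rw [Matrix.mul_assoc S, ← Matrix.mul_assoc S⁻¹, Matrix.nonsing_inv_mul _ hSu,
        Matrix.one_mul, Matrix.mul_assoc, Matrix.mul_nonsing_inv _ hyu, Matrix.mul_one]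
    rw [← h5, h3, Matrix.mul_zero, Matrix.zero_mul]
  intro k
  have h6 : ∑ a, S⁻¹ k a • Z a = τ k := by
    simp only [hZ, Finset.smul_sum, smul_smul]
    rw [Finset.sum_comm]
    simp only [← Finset.sum_smul]
    have h7 : ∀ l, ∑ a, S⁻¹ k a * S a l = (1 : Matrix (Fin n) (Fin n) ℂ) k l := by
      intro l
      rw [← Matrix.mul_apply, Matrix.nonsing_inv_mul _ hSu]
    simp only [h7, Matrix.one_apply, ite_smul, one_smul, zero_smul, Finset.sum_ite_eq,
      Finset.mem_univ, if_true]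
  rw [← h6]
  simp only [hZ0, smul_zero, Finset.sum_const_zero]

/-- The lower bound of the average of the trace. -/
theorem avg_ge' (h3 : Pool.Agent.Helper95.HS.S_TRC) {n : ℕ} {T : Set (Cn n)} {κ : Cn n → ℝ}
    (hopen : IsOpen T) (hκt : TestF T κ) (hκ0 : ∀ x, 0 ≤ κ x)
    {Q Y : Cn n → Matrix (Fin n) (Fin n) ℂ} (hQs : ∀ i j, ContDiffOn ℝ ∞ (fun x => Q x i j) T)
    (hQp : ∀ x ∈ T, (Q x).PosDef) (hYs : ∀ i j, ContDiffOn ℝ ∞ (fun x => Y x i j) T)
    (hYp : ∀ x ∈ T, (Y x).PosSemidef)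
    (hsc : ContinuousOn (fun x => (Matrix.trace (Y x * (Q x)⁻¹)).re) T) (k : ℕ)
    (hV : 0 ≤ ∫ x in T, κ x * (Q x).det.re)
    (hvol : ∀ t : ℝ, 0 < t → ∫ x in T, κ x * (Q x + (t : ℂ) • Y x).det.re =
      (1 + t) ^ k * ∫ x in T, κ x * (Q x).det.re) :
    k * ∫ x in T, κ x * (Q x).det.re ≤
      ∫ x in T, κ x * ((Q x).det.re * (Matrix.trace (Y x * (Q x)⁻¹)).re) := by
  have hdc : ContinuousOn (fun x => (Q x).det.re) T := det_cont hQs
  set s : Cn n → ℝ := fun x => (Matrix.trace (Y x * (Q x)⁻¹)).re with hs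
  -- bound
  obtain ⟨B, hB0, hB⟩ : ∃ B : ℝ, 0 < B ∧ ∀ x ∈ tsupport κ, s x ≤ B := by
    have hc : IsCompact (tsupport κ) := hκt.2.1
    obtain ⟨B, hB⟩ := (hc.image_of_continuousOn (hsc.mono hκt.2.2)).bddAbove
    refine ⟨max B 1, lt_of_lt_of_le one_pos (le_max_right _ _), ?_⟩
    intro x hx
    exact (hB ⟨x, hx, rfl⟩).trans (le_max_left _ _)
  have i1 : Integrable (fun x => κ x * (Q x).det.re) := testF_mul hopen hκt hdc
  have i2 : Integrable (fun x => κ x * ((Q x).det.re * s x)) :=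
    testF_mul hopen hκt (hdc.mul hsc)
  have i3 : Integrable (fun x => κ x * ((Q x).det.re * s x ^ 2)) :=
    testF_mul hopen hκt (hdc.mul (hsc.pow 2))
  have key : ∀ t : ℝ, 0 < t → t * B ≤ 1 →
      k * ∫ x in T, κ x * (Q x).det.re ≤ (∫ x in T, κ x * ((Q x).det.re * s x)) +
        t * ∫ x in T, κ x * ((Q x).det.re * s x ^ 2) := by
    intro t ht htB
    have e1 := hvol t ht
    have e3 : ∫ x in T, κ x * (Q x + (t : ℂ) • Y x).det.re ≤
        ∫ x in T, (κ x * (Q x).det.re + t * (κ x * ((Q x).det.re * s x)) +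
          t ^ 2 * (κ x * ((Q x).det.re * s x ^ 2))) := by
      apply setIntegral_mono_on
      · apply Integrable.integrableOn
        apply testF_mul hopen hκt
        apply det_cont
        intro i j
        exact (hQs i j).add ((contDiffOn_const (c := (t : ℂ))).mul (hYs i j))
      · exact ((i1.add (i2.const_mul t)).add (i3.const_mul (t ^ 2))).integrableOn
      · exact hopen.measurableSet
      · intro x hx
        rcases eq_or_ne (κ x) 0 with h0 | h0
        · simp [h0]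
        · have hx' : x ∈ tsupport κ := subset_tsupport κ h0
          have f1 := ((h3 (Q x) (Y x) (hQp x hx)).2.2.2.2 t ht.le (hYp x hx)).2
          have f2 : (Matrix.trace ((Q x)⁻¹ * Y x)).re = s x := by
            simp only [hs]
            rw [Matrix.trace_mul_comm]
          rw [f2] at f1
          have f4 : t * s x ≤ 1 := (mul_le_mul_of_nonneg_left (hB x hx') ht.le).trans htB
          have f5 := mul_le_mul_of_nonneg_left (f1 f4) (hκ0 x)
          refine f5.trans (le_of_eq ?_)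
          ring
    have e4 : ∫ x in T, (κ x * (Q x).det.re + t * (κ x * ((Q x).det.re * s x)) +
          t ^ 2 * (κ x * ((Q x).det.re * s x ^ 2))) = (∫ x in T, κ x * (Q x).det.re) +
          t * (∫ x in T, κ x * ((Q x).det.re * s x)) +
          t ^ 2 * ∫ x in T, κ x * ((Q x).det.re * s x ^ 2) := by
      have j1 : IntegrableOn (fun x => κ x * (Q x).det.re + t * (κ x * ((Q x).det.re * s x))) T :=
        (i1.add (i2.const_mul t)).integrableOn
      have j2 : IntegrableOn (fun x => t ^ 2 * (κ x * ((Q x).det.re * s x ^ 2))) T :=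
        (i3.const_mul (t ^ 2)).integrableOn
      have j3 : IntegrableOn (fun x => t * (κ x * ((Q x).det.re * s x))) T :=
        (i2.const_mul t).integrableOn
      rw [integral_add j1 j2, integral_add i1.integrableOn j3, integral_const_mul,
        integral_const_mul]
    rw [e1, e4] at e3
    have e5 : 1 + (k : ℝ) * t ≤ (1 + t) ^ k := one_add_mul_le_pow (by linarith) k
    have e6 := mul_le_mul_of_nonneg_right e5 hV
    have e7 : t * (k * ∫ x in T, κ x * (Q x).det.re) ≤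
        t * ((∫ x in T, κ x * ((Q x).det.re * s x)) +
        t * ∫ x in T, κ x * ((Q x).det.re * s x ^ 2)) := by nlinarith
    exact le_of_mul_le_mul_left e7 ht
  have hc : Tendsto (fun t : ℝ => (∫ x in T, κ x * ((Q x).det.re * s x)) +
      t * ∫ x in T, κ x * ((Q x).det.re * s x ^ 2)) (𝓝[>] 0)
      (𝓝 ((∫ x in T, κ x * ((Q x).det.re * s x)) +
      0 * ∫ x in T, κ x * ((Q x).det.re * s x ^ 2))) := by
    apply Tendsto.mono_left _ nhdsWithin_le_nhds
    exact (continuous_const.add (continuous_id.mul continuous_const)).tendsto 0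
  rw [zero_mul, add_zero] at hc
  refine ge_of_tendsto hc ?_
  have : Ioo (0 : ℝ) (1 / B) ∈ 𝓝[>] (0 : ℝ) := Ioo_mem_nhdsGT (by positivity)
  filter_upwards [this] with t ht
  refine key t ht.1 ?_
  have := mul_le_mul_of_nonneg_right ht.2.le hB0.le
  rwa [one_div, inv_mul_cancel₀ hB0.ne'] at this

/-- HB5 -/
theorem hb5 (hPUE : Pool.Agent.Helper10.SP.S_PUE.{u}) (hTRI : Pool.Agent.Helper95.HS.S_TRI.{u})
    (hNULL0 : Pool.Agent.Helper95.HS.S_NULL0.{u}) (hTRC : Pool.Agent.Helper95.HS.S_TRC)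
    (hKETP : Pool.Agent.Helper95.HS.S_KETP.{u}) (hRHOI : S_RHOI.{u}) (hMOMG : S_MOMG.{u})
    (hSCL : S_SCL.{u}) (hSBET : S_SBET.{u}) (hSDR : S_SDR) : S_HB5.{u} := by
  intro n m T G _ R H σ h P r hH hS hP hhom Q hQ
  obtain ⟨hQk, hQe⟩ := hQ
  have hopen : IsOpen T := hH.et.isOpen
  obtain ⟨κ, hκ⟩ := hPUE T R hH.et
  set f : Cn n → Matrix (Fin n) (Fin m) ℂ := fun y => σ y * P y with hf
  obtain ⟨hSf, -, hbet⟩ := hSBET T R hH.et σ h P r hS hP
  set β : Cn n → Matrix (Fin n) (Fin n) ℂ := gS f h with hβ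
  have hrho : ∀ x ∈ T, rho Q x = Q x - β x := fun x hx => by
    rw [hQe x hx]
    simp
  obtain ⟨hβs, hsI, -, -, -, hscl⟩ := hSCL T R f h hSf Q β hQk hrho
  set s : Cn n → ℝ := tS f h Q with hs
  have hse : ∀ x, s x = (Matrix.trace (β x * (Q x)⁻¹)).re := fun x => rfl
  have hβp : ∀ x ∈ T, (β x).PosSemidef := fun x hx => (hscl x hx).1
  have hsdr := fun x hx => hSDR r (Q x) (f x) (h x) (P x) (hQk.posDef x hx) (hS.posDef x hx)
    (hP.proj x hx) (hP.herm x hx) (hP.tr x hx)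
    (by rw [hf]; simp only; rw [Matrix.mul_assoc, hP.proj x hx])
  obtain ⟨htr, -⟩ := (hKETP T R hQk.et).2.2 Q s hQk hsI
  set q : Cn n → ℝ := fun x => (Matrix.trace (β x * (Q x)⁻¹ * β x * (Q x)⁻¹)).re -
    2 * s x + r with hq
  have hq0 : ∀ x ∈ T, 0 ≤ q x := fun x hx => (hsdr x hx).1
  have hid : ∀ x ∈ T, (trL Q s x).re - s x + r = q x + AAs f h Q x + NKs f h Q x := by
    intro x hx
    obtain ⟨-, -, -, -, -, -, h7, -⟩ := hscl x hx
    rw [h7]
    have e1 : (Matrix.trace (β x * (Q x)⁻¹ * gS f h x * (Q x)⁻¹)).re =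
        (Matrix.trace (β x * (Q x)⁻¹ * β x * (Q x)⁻¹)).re := rfl
    rw [e1]
    simp only [hq]
    ring
  have hA0 : ∀ x ∈ T, 0 ≤ AAs f h Q x := fun x hx => (hscl x hx).2.2.1
  have hN0 : ∀ x ∈ T, 0 ≤ NKs f h Q x := fun x hx => (hscl x hx).2.2.2.1
  set F : Cn n → ℝ := fun x => (trL Q s x).re - s x + r with hF
  have hF0 : ∀ x ∈ T, 0 ≤ F x := fun x hx => by
    simp only [hF]
    rw [hid x hx]
    have h1 := hq0 x hx
    have h2 := hA0 x hx
    have h3 := hN0 x hx
    linarith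
  have hFI : InvF T R F := by
    refine ⟨(htr.1.sub hsI.1).add contDiffOn_const, ?_⟩
    intro γ x y hxy
    simp only [hF]
    have a1 := htr.2 γ x y hxy
    have a2 := hsI.2 γ x y hxy
    simp only at a1
    rw [a1, a2]
  have hdc : ContinuousOn (fun x => (Q x).det.re) T := det_cont hQk.smooth
  have hV : 0 < Pool.Agent.Helper95.HS.vol T κ Q := (hNULL0 T R Q hQk κ hκ).1
  -- the volumes
  obtain ⟨hr1, hr2, hr3, hr4, hr5⟩ := hRHOI T R H hH.et ⟨hH.posDef, hH.smooth, hH.inv⟩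
  obtain ⟨hw, hrw⟩ := hr5 Q ⟨hQk.posDef, hQk.smooth, hQk.inv⟩
  have hβC : CHF β T := hP.chf
  have hβI : InvH R β := hP.inv
  have hvol0 : ∀ t : ℝ, ∫ x in T, κ x * (Q x + (t : ℂ) • β x).det.re =
      ∫ x in T, κ x * (rho H x + ((1 + t : ℝ) : ℂ) • β x).det.re := by
    intro t
    have hZ : CHF (fun x => rho H x + ((1 + t : ℝ) : ℂ) • β x) T :=
      Pool.Agent.Helper97.HS.chf_ad hopen hr1 (Pool.Agent.Helper97.HS.chf_sm hopen hβC (1 + t))
    have hZI : InvH R (fun x => rho H x + ((1 + t : ℝ) : ℂ) • β x) :=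
      Pool.Agent.Helper97.HS.invH_ad hr2 (Pool.Agent.Helper97.HS.invH_sm hβI _)
    rw [← hMOMG T R H hH κ hκ _ hZ hZI _ hw]
    refine setIntegral_congr_fun hopen.measurableSet fun x hx => ?_
    have h3 := hrho x hx
    rw [hrw x hx] at h3
    have h4 : Q x + (t : ℂ) • β x = rho H x + ((1 + t : ℝ) : ℂ) • β x +
        LM (fun y => ld Q y - ld H y) x := by
      have h5 : Q x = rho H x + LM (fun y => ld Q y - ld H y) x + β x := by
        rw [h3]; abel
      rw [h5]
      push_cast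
      rw [add_smul, one_smul]
      abel
    show κ x * (Q x + (t : ℂ) • β x).det.re = _
    rw [h4]
  have hvol1 : ∀ t : ℝ, 0 < t → ∫ x in T, κ x * (Q x + (t : ℂ) • β x).det.re =
      (1 + t) ^ r * ∫ x in T, κ x * (Q x).det.re := by
    intro t ht
    have e1 := hvol0 0
    simp only [Complex.ofReal_zero, zero_smul, add_zero, Complex.ofReal_one, one_smul] at e1
    rw [hvol0 t, hhom κ hκ (1 + t) (by linarith), e1]
  have hav := avg_ge' hTRC hopen hκ.test hκ.nonneg hQk.smooth hQk.posDef hβs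
    hβp hsI.1.continuousOn r hV.le hvol1
  have hint : ∫ x in T, κ x * (Q x).det.re * F x ≤ 0 := by
    have i1 : IntegrableOn (fun x => κ x * ((Q x).det.re * (trL Q s x).re)) T :=
      (testF_mul hopen hκ.test (hdc.mul htr.1.continuousOn)).integrableOn
    have i2 : IntegrableOn (fun x => κ x * ((Q x).det.re * s x)) T :=
      (testF_mul hopen hκ.test (hdc.mul hsI.1.continuousOn)).integrableOn
    have i3 : IntegrableOn (fun x => κ x * (Q x).det.re) T :=
      (testF_mul hopen hκ.test hdc).integrableOn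
    have e1 : ∫ x in T, κ x * (Q x).det.re * F x = ∫ x in T,
        (κ x * ((Q x).det.re * (trL Q s x).re) -
          (κ x * ((Q x).det.re * s x) - r * (κ x * (Q x).det.re))) := by
      refine setIntegral_congr_fun hopen.measurableSet fun x _ => ?_
      simp only [hF]
      ring
    have j3 : IntegrableOn (fun x => (r : ℝ) * (κ x * (Q x).det.re)) T := i3.const_mul _
    have j2 : IntegrableOn (fun x => κ x * ((Q x).det.re * s x) -
        (r : ℝ) * (κ x * (Q x).det.re)) T := i2.sub j3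
    rw [e1, integral_sub i1 j2, integral_sub i2 j3, integral_const_mul]
    have e2 : ∫ x in T, κ x * ((Q x).det.re * (trL Q s x).re) = 0 := by
      rw [← (hTRI T R Q hQk).2 κ hκ s hsI]
      refine setIntegral_congr_fun hopen.measurableSet fun x _ => ?_
      ring
    rw [e2]
    have e3 : ∫ x in T, κ x * ((Q x).det.re * s x) =
        ∫ x in T, κ x * ((Q x).det.re * (Matrix.trace (β x * (Q x)⁻¹)).re) := rfl
    rw [e3]
    linarith
  have hz := (hNULL0 T R Q hQk κ hκ).2 F hFI hF0 hint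
  intro x hx
  have z1 := hz x hx
  simp only [hF] at z1
  rw [hid x hx] at z1
  have z2 := hq0 x hx
  have z3 := hA0 x hx
  have z4 := hN0 x hx
  have z5 : q x = 0 := by linarith
  have z6 : AAs f h Q x = 0 := by linarith
  obtain ⟨y1, y2⟩ := (hsdr x hx).2 z5
  exact ⟨y1, y2, aas_zero (Q x)⁻¹ (h x) (hQk.posDef x hx).inv (hS.posDef x hx)
    (fun k => tauS f h Q k x) z6⟩

end Pool.Agent.Helper10.HB
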