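import Pool.Agent.Helper82.HB.GoalsB
import Pool.Agent.Helper10.HB.Rcal

/-! # HB: the curvature vanishes through the projector (`S_HNUL`) -/

open Complex Metric Set Filter Topology MeasureTheory
open scoped ContDiff ComplexConjugate ComplexOrder Manifold Matrix MatrixOrder

namespace Pool.Agent.Helper10.HB

open Pool.Agent.Helper95.Lin Pool.Agent.Helper16.Abund Pool.Agent.Helper92.Orb
  Pool.Agent.Helper10.SP Pool.Agent.Helper95.RK Pool.Agent.Helper57.HS
  Pool.Agent.Helper15.HS Pool.Agent.Helper15.GS Pool.Agent.Helper57.RBC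
  Pool.Agent.Helper82.HB

universe u v

theorem holo_mul {n a b c : ℕ} {W : Set (Cn n)} {X : Cn n → Matrix (Fin a) (Fin b) ℂ}
    {Y : Cn n → Matrix (Fin b) (Fin c) ℂ}
    (hX : ∀ i j, DifferentiableOn ℂ (fun x => X x i j) W)
    (hY : ∀ i j, DifferentiableOn ℂ (fun x => Y x i j) W) :
    ∀ i j, DifferentiableOn ℂ (fun x => (X x * Y x) i j) W := by
  intro i j
  simp only [Matrix.mul_apply]
  exact DifferentiableOn.fun_sum fun p _ => (hX i p).mul (hY p j)

/-- HNUL -/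
theorem hnul (hWIRT : S_WIRT) (hMCAL : S_MCAL) (hCSY : S_CSY) : S_HNUL.{u} := by
  intro n m T G _ R σ h P r hS hP Q hQ hτ x hx i j l q
  have hT : IsOpen T := hQ.et.isOpen
  set f : Cn n → Matrix (Fin n) (Fin m) ℂ := fun y => σ y * P y with hf
  have hfh : ∀ i a, DifferentiableOn ℂ (fun x => f x i a) T := holo_mul hS.holo hP.holo
  obtain ⟨hfs, hf0⟩ := cdbR_holo hWIRT hT hfh
  -- the connections are smooth
  have hdet : ∀ x ∈ T, (Q x).det ≠ 0 := fun x hx => (hQ.posDef x hx).det_pos.ne'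
  have hdeth : ∀ x ∈ T, (h x).det ≠ 0 := fun x hx => (hS.posDef x hx).det_pos.ne'
  have hGs : ∀ k i j, ContDiffOn ℝ ∞ (fun x => Gam Q k x i j) T := by
    intro k
    obtain ⟨hQd, -, -, hQinv, -⟩ := hMCAL T hT Q Q hQ.smooth hQ.smooth
    exact (hMCAL T hT (cdM k Q) (fun y => (Q y)⁻¹) (fun i j => (hQd k i j).1) (hQinv hdet).1).2.1
  have hGE : ∀ k a b, ContDiffOn ℝ ∞ (fun x => GamE h k x a b) T := by
    intro k
    obtain ⟨hQd, -, -, hQinv, -⟩ := hMCAL T hT h h hS.smooth hS.smooth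
    exact (hMCAL T hT (cdM k h) (fun y => (h y)⁻¹) (fun i j => (hQd k i j).1) (hQinv hdeth).1).2.1
  -- differentiate the equation
  have key : ∀ k l, cdbM l (Gam Q k) x * f x = 0 := by
    intro k l
    have e0 : cdbR l (fun y => cdR k f y + f y * GamE h k y - Gam Q k y * f y) x = 0 := by
      rw [(cdR_congr hT hx (X := fun y => cdR k f y + f y * GamE h k y - Gam Q k y * f y)
        (Y := fun _ => 0) (fun y hy => hτ y hy k) l).2]
      exact (cdR_zero l x).2
    have s1 : ∀ i a, ContDiffOn ℝ ∞ (fun x => cdR k f x i a) T := fun i a =>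
      (cdR_smooth hWIRT hT f hfs k i a).1
    have s2 : ∀ i a, ContDiffOn ℝ ∞ (fun x => (f x * GamE h k x) i a) T :=
      mulR_smooth f (GamE h k) hfs (hGE k)
    have s3 : ∀ i a, ContDiffOn ℝ ∞ (fun x => (Gam Q k x * f x) i a) T :=
      mulR_smooth (Gam Q k) f (hGs k) hfs
    have s4 : ∀ i a, ContDiffOn ℝ ∞ (fun x => (cdR k f x + f x * GamE h k x) i a) T :=
      fun i a => (s1 i a).add (s2 i a)
    rw [(cdR_sub hWIRT hT hx s4 s3 l).2, (cdR_add hWIRT hT hx s1 s2 l).2,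
      cdb_cd_holo hWIRT hT hfh x hx k l,
      (rcal hWIRT hT f (GamE h k) hfs (hGE k) x hx l).2.1,
      (rcal hWIRT hT (Gam Q k) f (hGs k) hfs x hx l).2.1, hf0 x hx l, Matrix.zero_mul,
      Matrix.mul_zero, zero_add, zero_add, add_zero] at e0
    have e1 : f x * cdbR l (GamE h k) x = 0 := by
      have e2 : cdbR l (GamE h k) x = RE h k l x := rfl
      rw [e2, hf]
      simp only
      rw [Matrix.mul_assoc, hP.flat x hx k l, Matrix.mul_zero]
    rw [e1, zero_sub, neg_eq_zero] at e0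
    exact e0
  set β : Matrix (Fin n) (Fin n) ℂ := gS (fun y => σ y * P y) h x with hβ
  have hβe : β = f x * h x * (f x)ᴴ := rfl
  have hβH : βᴴ = β := (hP.chf.herm x hx).eq
  have hQu : IsUnit (Q x).det := (hdet x hx).isUnit
  have hQi : ((Q x)⁻¹)ᴴ = (Q x)⁻¹ := (hQ.posDef x hx).inv.isHermitian
  have hkβ : ∀ k l, cdbM l (Gam Q k) x * β = 0 := by
    intro k l
    rw [hβe, ← Matrix.mul_assoc, ← Matrix.mul_assoc, key k l, Matrix.zero_mul, Matrix.zero_mul]
  obtain ⟨hc1, hc2, -⟩ := hCSY T hT Q hQ.posDef hQ.smooth x hx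
  have e3 : ∀ p, crv Q x p j l q = conj (crv Q x j p q l) := by
    intro p
    rw [hc2 j p q l]
  have e4 : ∑ p, conj ((β * (Q x)⁻¹) i p) * crv Q x j p q l = 0 := by
    have e5 : (cdbM l (Gam Q q) x * Q x * (β * (Q x)⁻¹)ᴴ) j i = 0 := by
      rw [Matrix.conjTranspose_mul, hQi, hβH, Matrix.mul_assoc, ← Matrix.mul_assoc (Q x),
        Matrix.mul_nonsing_inv _ hQu, Matrix.one_mul, hkβ q l, Matrix.zero_apply]
    rw [Matrix.mul_apply] at e5
    have e6 : ∑ p, conj ((β * (Q x)⁻¹) i p) * crv Q x j p q l =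
        - ∑ p, (cdbM l (Gam Q q) x * Q x) j p * ((β * (Q x)⁻¹)ᴴ) p i := by
      rw [← Finset.sum_neg_distrib]
      refine Finset.sum_congr rfl fun p _ => ?_
      rw [hc1 j p q l, Matrix.conjTranspose_apply]
      simp only [RCLike.star_def]
      ring
    rw [e6, e5, neg_zero]
  have e7 : ∑ p, (β * (Q x)⁻¹) i p * crv Q x p j l q =
      conj (∑ p, conj ((β * (Q x)⁻¹) i p) * crv Q x j p q l) := by
    rw [map_sum]
    refine Finset.sum_congr rfl fun p _ => ?_
    rw [map_mul, Complex.conj_conj, e3 p]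
  rw [e7, e4, map_zero]

end Pool.Agent.Helper10.HB
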