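import Pool.Agent.Helper45.HB.GoalsM
import Pool.Agent.Helper45.HB.PUSHQ
import Pool.Agent.Helper82.HB.GoalsB
import Pool.Agent.Helper45.RBC.AsmM
import Pool.Agent.Helper44.RBC.Rd
import Pool.Agent.Helper87.HS.CLG

/-! # HB: assembly of the main theorem from its parts -/

open Complex Metric Set Filter Topology MeasureTheory
open scoped ContDiff ComplexConjugate ComplexOrder Manifold Matrix

namespace Pool.Agent.Helper10.HB

open Pool.Agent.Helper95.Lin Pool.Agent.Helper16.Abund Pool.Agent.Helper92.Orb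
  Pool.Agent.Helper10.SP Pool.Agent.Helper95.RK Pool.Agent.Helper57.HS
  Pool.Agent.Helper15.HS Pool.Agent.Helper10.HS Pool.Agent.Helper15.GS Pool.Agent.Helper57.RBC
  Pool.Agent.Helper10.RBC Pool.Agent.Helper15.RK Pool.Agent.Helper10.RK Pool.Agent.Helper15.RBC
  Pool.Agent.Helper45.RBC Pool.Agent.Helper82.HB Pool.Agent.Helper45.HB

universe u v

/-- An idempotent matrix whose trace is the size is the identity. -/
theorem proj_full {n : ℕ} (P : Matrix (Fin n) (Fin n) ℂ) (hP : P * P = P)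
    (ht : Matrix.trace P = n) : P = 1 := by
  have h1 : (1 - P) * (1 - P) = 1 - P := by
    rw [Matrix.mul_sub, Matrix.sub_mul, Matrix.sub_mul, hP]
    simp
  have h2 := Pool.Agent.Helper44.RBC.rank_proj (1 - P) h1
  rw [Matrix.trace_sub, Matrix.trace_one, ht, Fintype.card_fin, sub_self] at h2
  have h3 : (1 - P).rank = 0 := by exact_mod_cast h2.symm
  have h4 : (1 - P : Matrix (Fin n) (Fin n) ℂ) = 0 := by
    unfold Matrix.rank at h3
    rw [Submodule.finrank_eq_zero, LinearMap.range_eq_bot] at h3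
    have h5 : Matrix.toLin' (1 - P) = 0 := h3
    exact (LinearEquiv.map_eq_zero_iff _).1 h5
  rw [sub_eq_zero] at h4
  exact h4.symm

theorem crv_congr {n : ℕ} {X Y : Cn n → Matrix (Fin n) (Fin n) ℂ} {x : Cn n}
    (h : X =ᶠ[𝓝 x] Y) (i j k l : Fin n) : crv X x i j k l = crv Y x i j k l := by
  unfold crv
  have h1 : (fun y => X y i j) =ᶠ[𝓝 x] fun y => Y y i j := by
    filter_upwards [h] with y hy
    rw [hy]
  have h2 : (cdb l fun y => X y i j) =ᶠ[𝓝 x] cdb l fun y => Y y i j := by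
    filter_upwards [h1.eventuallyEq_nhds] with y hy
    exact Pool.Agent.Helper87.HS.cdb_congr hy l
  rw [Pool.Agent.Helper87.HS.cd_congr h2, Pool.Agent.Helper87.HS.cdM_congr h,
    Pool.Agent.Helper87.HS.cdbM_congr h, h.eq_of_nhds]

theorem mainh (hUNIS : S_UNIS.{u, v}) (hHDM : S_HDM.{u, v}) (hHOUT : S_HOUT.{u})
    (hPUSHQ : S_PUSHQ.{u, v}) (hPUSHV : S_PUSHV.{u, v}) (hRKM : S_RKM.{u, v}) (hGAL : S_GAL)
    (hLMF : S_LMF) (hDETI : S_DETI.{u}) (hFZ : S_FOLZ.{u, v}) (hFLD : S_FLD.{u, v})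
    (hFLF : S_FLF.{u, v}) (hFLTM : S_FLTM.{u, v}) (hFR : S_FRONT.{u, v})
    (hM : S_MAINRK.{u, v}) : S_MAINH.{u, v} := by
  intro n m G M _ _ _ _ _ _ _ om g hD hg hgi v₀ hv₀ hv₀i hpos
  rcases Nat.eq_zero_or_pos n with hn | hn
  · subst hn
    exact orb_zero
  obtain ⟨T, E, σ, h, hE, hC, hσ, hh, hhs, hgE, hneg⟩ := hUNIS hn hD hg
  have hHD := hHDM hD hgi v₀ hv₀ hv₀i hpos T E σ h hE hC hσ hh hhs hgE hneg
  obtain ⟨k, Q, PP, hk, hQ, hP⟩ := hHOUT hn T _ _ σ h _ hHD
  obtain ⟨q, hqH, hqK, hqi, hqE⟩ := hPUSHQ hD T E hE hC Q hQ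
  have hTo : IsOpen T := hQ.et.isOpen
  have hcrv : ∀ x ∈ T, ∀ i j k l, crv (pm n q E) x i j k l = crv Q x i j k l := by
    intro x hx i j k l
    refine crv_congr ?_ i j k l
    filter_upwards [hTo.mem_nhds hx] with y hy
    exact hqE y hy
  rcases Nat.lt_or_eq_of_le hk with hlt | rfl
  · obtain ⟨v, hv, hvinv, hvE, hrank⟩ := hPUSHV hD T E hE hC Q hQ
    have hld : ContDiffOn ℝ ∞ (ld Q) T := by
      obtain ⟨d1, d2, -⟩ := hDETI T _ Q hQ
      exact d2.log fun x hx => (d1 x hx).2.1.ne'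
    have hlev : ∀ x ∈ T, ∀ e, ((lev (ld Q) x e : ℝ) : ℂ) = hermi (Q x - PP x * Q x) e e := by
      intro x hx e
      have hL : LM (ld Q) x = Q x - PP x * Q x := (hP x hx).1
      rw [(hLMF T hTo (ld Q) hld).2.2.1 x hx e, hL]
    have hcor : CorankK k (ld Q) T := by
      intro x hx
      obtain ⟨-, p1, p2, p3, -⟩ := hP x hx
      have hQx := hQ.posDef x hx
      have hu : IsUnit (Q x).det := (isUnit_iff_ne_zero.2 hQx.det_pos.ne')
      have e1 : PP x * Q x * (Q x)⁻¹ = PP x := by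
        rw [Matrix.mul_assoc, Matrix.mul_nonsing_inv _ hu, Matrix.mul_one]
      obtain ⟨hpsd, V, hV1, hV2⟩ := (hGAL k (Q x) (Q x) (PP x) hQx hQx p1 p2 p3).2 (by
        rw [e1, ← Matrix.mul_assoc, p1, e1, p3]
        simp
        ring)
      refine ⟨fun e => ?_, V, hV1, fun e => ?_⟩
      · have h1 := congrArg Complex.re (hlev x hx e)
        rw [Complex.ofReal_re] at h1
        rw [h1]
        exact hermi_re_nonneg hpsd e
      · rw [← hV2 e, ← hlev x hx e]
        exact Complex.ofReal_eq_zero.symm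
    have hr := hrank k hcor
    have hneg : GNeg n M q v := hRKM hD hqH hqi T E hE hC v hv hvinv Q PP hQ.posDef hld hvE
      (fun x hx => by rw [hqE x hx]; exact (hP x hx).1) (fun x hx => by rw [hqE x hx])
      (fun x hx => (hP x hx).2.1) (fun x hx => by rw [hqE x hx]; exact (hP x hx).2.2.1)
      (fun x hx i j l m => by
        simp only [hcrv x hx]
        exact (hP x hx).2.2.2.2 i j l m)
    obtain ⟨b, rfl⟩ : ∃ b, n = b + k := ⟨n - k, by omega⟩
    have hDK : DataK b k G M om v := ⟨hD.act, hD.proper, hD.kah, hD.inv, hv, hvinv, hr⟩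
    rcases Nat.eq_zero_or_pos k with hk0 | hk0
    · subst hk0
      exact hM (by omega) hDK (hFZ hDK)
    · exact hM (by omega) hDK (hFR hk0 hDK ⟨hqH, hqi, Or.inl hneg⟩)
  · have hD' : DataH k G M q := ⟨hD.act, hD.proper, hqK, hqi⟩
    have hflat : ∀ x ∈ T, ∀ i j p l, crv (pm k q E) x i j p l = 0 := by
      intro x hx i j p l
      rw [hcrv x hx]
      obtain ⟨-, p1, p2, p3, p4⟩ := hP x hx
      have h1 := proj_full (PP x) p1 p3
      have h2 := p4 i j p l
      rw [h1] at h2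
      simpa [Matrix.one_apply] using h2
    obtain ⟨b, rfl⟩ : ∃ b, k = 0 + b := ⟨k, (zero_add k).symm⟩
    obtain ⟨v, hDK, hF⟩ := hFLD hD' (hFLTM hD' T E hE hC hflat)
    exact hFLF hDK hF

end Pool.Agent.Helper10.HB
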